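import Pool.Agent.TH464.PO.BaseFam2

set_option autoImplicit false

/-!
# Almost prime Cunningham chains of the second kind: consecutive gaps of prescribed exact lengths

Let `m` be good if the `k` numbers `2 ^ i m + 1`, `i < k` (the chain `m + 1, 2 m + 1, 4 m + 1, …`
of the second kind of length `k` starting at `m + 1`; for `k = 2` the pair `p, 2 p - 1`) all have
at most `r` prime factors, all larger than `X ^ (1 / r)`, let `V` be the sieve density of this
condition, and for a finite set `B` let `V_B` be the sieve density of the condition that all `m +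
t`, `t ∈ B`, satisfy it. Given `θ > 0`, a number `s` of gaps, a size `x` and an accuracy `ε`, for
all `r ≥ r0` and all large `X`, in ALL intervals `(Z, Z + Y]` inside `[0, 2 X]` of length `Y ≥ X ^
θ` and for ALL gap lengths `d_0, ..., d_(s-1) ≥ 1` with sum `L ≤ x / V`: the number of the good
integers `b` in `(Z, Z + Y]` whose next `s` gaps are EXACTLY `d_0, ..., d_(s-1)` is `Y V_B e ^ (-L
V)`, up to `ε Y V_B`, where `B` is the set of the positions `0, d_0, d_0 + d_1, ..., L`.
-/

namespace Pool.Agent.Results.MP_0fefc4_nt.ExactGaps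

open Finset Filter

/-- `N` has at most `B` prime factors (with multiplicity), all of them larger than `z`. -/
def AlmostPrime (B : ℕ) (z : ℝ) (N : ℕ) : Prop :=
  N.primeFactorsList.length ≤ B ∧ ∀ p : ℕ, p.Prime → p ∣ N → z < (p : ℝ)

/-- `m` is good: `m + 1` starts an almost prime Cunningham chain of the second kind of length `k`: all the
`2 ^ i m + 1`, `i < k`, have at most `r` prime factors, all larger than `X ^ (1 / r)`. -/
def Good (k r X m : ℕ) : Prop :=
  ∀ i < k, AlmostPrime r ((X : ℝ) ^ (1 / (r : ℝ))) (2 ^ i * m + 1)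

open Classical in
/-- The sieve density: the product of `1 - ρ(p) / p` over the primes `p ≤ X ^ (1 / r)`, where `ρ(p)` is
the number of the `m` mod `p` with `p` dividing one of the `2 ^ i m + 1`, `i < k`. -/
noncomputable def V (k r X : ℕ) : ℝ :=
  ∏ p ∈ (Finset.range (⌊(X : ℝ) ^ (1 / (r : ℝ))⌋₊ + 1)).filter Nat.Prime,
    (1 - (((Finset.range p).filter (fun m : ℕ => ∃ i < k, p ∣ 2 ^ i * m + 1)).card : ℝ) / p)

open Classical in
/-- The sieve density of the pattern `B`: the product of `1 - ρ(p) / p` over the primes `p ≤ X ^ (1 / r)`,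
where `ρ(p)` is the number of the `m` mod `p` with `p` dividing one of the `2 ^ i (m + t) + 1`, `i < k`,
`t ∈ B`. -/
noncomputable def VB (k r X : ℕ) (B : Finset ℕ) : ℝ :=
  ∏ p ∈ (Finset.range (⌊(X : ℝ) ^ (1 / (r : ℝ))⌋₊ + 1)).filter Nat.Prime,
    (1 - (((Finset.range p).filter
      (fun m : ℕ => ∃ t ∈ B, ∃ i < k, p ∣ 2 ^ i * (m + t) + 1)).card : ℝ) / p)

/-- The next good integer after `b`. -/
noncomputable def next (k r X : ℕ) (b : ℕ) : ℕ :=
  sInf {m | b < m ∧ Good k r X m}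

/-- The `j`-th gap after `b`: the distance between the `j`-th and the `(j + 1)`-st good integer after `b`,
where the `0`-th is `b` itself. -/
noncomputable def gap (k r X : ℕ) (b j : ℕ) : ℕ :=
  (next k r X)^[j + 1] b - (next k r X)^[j] b

/-- The positions `d 0 + ... + d (i - 1)`, `i = 0, 1, ..., s`, of good integers with the consecutive gaps
`d 0, ..., d (s - 1)`. -/
def pos {s : ℕ} (d : Fin s → ℕ) (i : ℕ) : ℕ :=
  ∑ k ∈ Finset.range i, if h : k < s then d ⟨k, h⟩ else 0

/-- The set of these `s + 1` positions. -/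
def pattern {s : ℕ} (d : Fin s → ℕ) : Finset ℕ :=
  (Finset.range (s + 1)).image (pos d)

open Pool.Agent.TH464.PO Pool.Agent.H373R2.T7 Pool.Agent.W123.RP

lemma fam (k : ℕ) (hk : 2 ≤ k) (r : ℕ) (hr : 1 ≤ r) : ∀ᶠ X : ℕ in atTop, ∀ _ : Unit, True →
    ∃ u v : Fin k → ℤ, LF k u v (X ^ 1) (Real.log X ^ (k + 1)) ∧
      (∀ m ≤ 3 * X, Sf (QL u v) ⌊(X : ℝ) ^ (1 / (r : ℝ))⌋₊ m ↔ Good k r X m) ∧
      Vq (QL u v) ⌊(X : ℝ) ^ (1 / (r : ℝ))⌋₊ = V k r X ∧
      ∀ B, Vq (QH (QL u v) B) ⌊(X : ℝ) ^ (1 / (r : ℝ))⌋₊ = VB k r X B := by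
  filter_upwards [c2_fam k hk r hr] with X h _ _
  exact ⟨_, _, h.1, h.2, V_nat (c2u k) (fun _ => 1) _ (fun p m => c2_ex k (fun N => p ∣ N) m) _,
    fun B => V_natB (c2u k) (fun _ => 1) B _ (fun p m => exists_congr fun t =>
      and_congr_right fun _ => c2_ex k (fun N => p ∣ N) (m + t)) _⟩

open Classical in
/-- **Consecutive gaps of prescribed exact lengths**, in all intervals. -/
theorem result (k : ℕ) (hk : 2 ≤ k) (θ : ℝ) (hθ : 0 < θ) (s : ℕ) (x ε : ℝ) (hε : 0 < ε) :
    ∃ r0 : ℕ, ∀ r : ℕ, r0 ≤ r → ∀ᶠ X : ℕ in atTop, ∀ Z Y : ℕ, (X : ℝ) ^ θ ≤ Y →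
      Z + Y ≤ 2 * X → ∀ d : Fin s → ℕ, (∀ j, 1 ≤ d j) → pos d s * V k r X ≤ x →
        |(((Finset.Ioc Z (Z + Y)).filter
            (fun b => Good k r X b ∧ ∀ j : Fin s, gap k r X b j = d j)).card : ℝ) -
          Y * VB k r X (pattern d) * Real.exp (-(pos d s * V k r X))| ≤
            ε * (Y * VB k r X (pattern d)) := by
  obtain ⟨r0, h⟩ := fam_exact k 1 (by omega) (fun _ (_ : Unit) => True) (fun r X _ m => Good k r X m)
    (fun r X _ => V k r X) (fun r X _ B => VB k r X B) (fam k hk) θ hθ s x ε hε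
  refine ⟨r0, fun r hr => ?_⟩
  filter_upwards [h r hr] with X hX
  exact hX () trivial

end Pool.Agent.Results.MP_0fefc4_nt.ExactGaps
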