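import Pool.Agent.TH899.UG.UIt

/-!
# More than half of the iterates of `x ↦ 2 x - 1`, `x ↦ 2 x + e`, `x ↦ D x + e`, uniformly

There is `δ > 0` such that for every `T₀` there is `C` such that for all `D ≥ 2`, all `η > 0` and all
sufficiently large `N` the following holds for EVERY integer `e` coprime to `D` with
`40 D ^ C |e| ≤ N`. There are `M ≥ 1` and `T ≥ T₀` with `M T ≤ C` such that for at least `(1/2 + δ) T` of
the `k = 1, ..., T` there are at least `N ^ (1 - η)` primes `p ≤ 2 D ^ C N` which the iterate of order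
`M k` of `S x = D x + e` maps to primes.

The question is about `D = 2`, `e = -1` and the first iterate. The constants `e` may be as large as the
primes up to a constant factor, the statement holds at every scale `N`, and `M`, `T`, `C`, `δ` do not
depend on `D`, `e`, `η` and `N`.

Proof: the coloured Maynard-Tao theorem with `T / (4 - c)` classes, uniform in constant terms up to `N`
(`Pool.Agent.TH899.UG.Uni.exactU`), helper142's theorem on sets of differences of many classes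
(`Pool.Agent.W142.TB.s_maiB`) and a compactness argument (`Pool.Agent.TH899.UG.UHalf.fin_half`).
-/

set_option autoImplicit false

namespace Pool.Agent.Results.MP_0fefc4_nt.UniformIterates

open Filter

/-- `x ↦ D x + e` -/
def S (D : ℕ) (e x : ℤ) : ℤ := D * x + e

theorem result : ∃ δ : ℝ, 0 < δ ∧ ∀ T₀ : ℕ, ∃ C : ℕ, ∀ D : ℕ, 2 ≤ D → ∀ η : ℝ, 0 < η →
    ∀ᶠ N : ℕ in atTop, ∀ e : ℤ, IsCoprime e (D : ℤ) → 40 * ((D : ℤ) ^ C * |e|) ≤ N →
    ∃ M T : ℕ, 1 ≤ M ∧ T₀ ≤ T ∧ M * T ≤ C ∧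
      (1 / 2 + δ) * (T : ℝ) ≤ ({k : ℕ | 0 < k ∧ k ≤ T ∧ (N : ℝ) ^ (1 - η) ≤
        ({p : ℕ | p ≤ 2 * D ^ C * N ∧ p.Prime ∧
          ((S D e)^[M * k] (p : ℤ)).toNat.Prime}.ncard : ℝ)}.ncard : ℝ) := by
  classical
  obtain ⟨δ, hδ, H⟩ := Pool.Agent.TH899.UG.UIt.uiter
  refine ⟨δ, hδ, fun T₀ => ?_⟩
  obtain ⟨C, H⟩ := H T₀
  refine ⟨C, fun D hD η hη => ?_⟩
  filter_upwards [H D hD η hη] with N hN
  intro e he heN
  obtain ⟨M, T, h1, h2, h3, h4⟩ := hN e he heN
  refine ⟨M, T, h1, h2, h3, h4.trans ?_⟩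
  rw [Nat.cast_le]
  refine Set.ncard_le_ncard ?_ ((Set.finite_Iic T).subset fun k hk => hk.2.1)
  rintro k ⟨hk1, hk2, hk3⟩
  refine ⟨hk1, hk2, hk3.trans ?_⟩
  rw [← Set.ncard_coe_finset, Nat.cast_le]
  refine Set.ncard_le_ncard ?_ ((Set.finite_Iic (2 * D ^ C * N)).subset fun p hp => hp.1)
  intro p hp
  obtain ⟨k1, k2, k3⟩ := Finset.mem_filter.1 (Finset.mem_coe.1 hp)
  refine ⟨(Finset.mem_Icc.1 k1).2, k2, ?_⟩
  have e1 : (S D e)^[M * k] (p : ℤ) = (D : ℤ) ^ (M * k) * p +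
      Pool.Agent.H447R3.IT.B D e (M * k) := Pool.Agent.H447R3.IT.iter D e (M * k) p
  rw [e1]
  exact k3

end Pool.Agent.Results.MP_0fefc4_nt.UniformIterates
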